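import Mathlib

set_option autoImplicit false

namespace Pool.Agent.Results.MP_78b302_al.Arity3

/-- Lattice terms in the variables indexed by `Fin n`. -/
inductive Tm (n : ℕ) : Type
  | var (i : Fin n)
  | inf (p q : Tm n)
  | sup (p q : Tm n)

/-- The value of a term under an assignment. -/
def Tm.ev {n : ℕ} {L : Type} [Lattice L] (v : Fin n → L) : Tm n → L
  | .var i => v i
  | .inf p q => p.ev v ⊓ q.ev v
  | .sup p q => p.ev v ⊔ q.ev v

/-- Renaming of the variables. -/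
def Tm.map {n : ℕ} (f : Fin n → Fin n) : Tm n → Tm n
  | .var i => .var (f i)
  | .inf p q => .inf (p.map f) (q.map f)
  | .sup p q => .sup (p.map f) (q.map f)

/-- The lattice `L` satisfies the identity. -/
def Holds (L : Type) [Lattice L] {n : ℕ} (t s : Tm n) : Prop :=
  ∀ v : Fin n → L, t.ev v = s.ev v

/-- Symmetric terms: equal to each of their permuted copies in every lattice. -/
def Symmetric {n : ℕ} (t : Tm n) : Prop :=
  ∀ (σ : Equiv.Perm (Fin n)) (K : Type) [Lattice K], Holds K t (t.map σ)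

/-- `L` belongs to the variety defined by the set of identities `E`. -/
def Models (E : Set (Σ n : ℕ, Tm n × Tm n)) (L : Type) [Lattice L] : Prop :=
  ∀ e ∈ E, Holds L e.2.1 e.2.2

theorem ev_map {n : ℕ} {L : Type} [Lattice L] (f : Fin n → Fin n) (v : Fin n → L) (t : Tm n) :
    (t.map f).ev v = t.ev (v ∘ f) := by
  induction t with
  | var i => rfl
  | inf p q a b => simp [Tm.map, Tm.ev, a, b]
  | sup p q a b => simp [Tm.map, Tm.ev, a, b]

theorem ev_hom {n : ℕ} {L K : Type} [Lattice L] [Lattice K] (f : L → K)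
    (h1 : ∀ a b, f (a ⊓ b) = f a ⊓ f b) (h2 : ∀ a b, f (a ⊔ b) = f a ⊔ f b) (v : Fin n → L)
    (t : Tm n) : f (t.ev v) = t.ev (f ∘ v) := by
  induction t with
  | var i => rfl
  | inf p q a b => simp [Tm.ev, h1, a, b]
  | sup p q a b => simp [Tm.ev, h2, a, b]

def N : Type := Fin 9

instance : DecidableEq N := inferInstanceAs (DecidableEq (Fin 9))
instance : Fintype N := inferInstanceAs (Fintype (Fin 9))

def jn : Fin 9 → Fin 9 → Fin 9 :=
  ![![0, 1, 2, 3, 4, 5, 6, 7, 8],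
    ![1, 1, 6, 7, 4, 8, 6, 7, 8],
    ![2, 6, 2, 5, 6, 5, 6, 8, 8],
    ![3, 7, 5, 3, 7, 5, 8, 7, 8],
    ![4, 4, 6, 7, 4, 8, 6, 7, 8],
    ![5, 8, 5, 5, 8, 5, 8, 8, 8],
    ![6, 6, 6, 8, 6, 8, 6, 8, 8],
    ![7, 7, 8, 7, 7, 8, 8, 7, 8],
    ![8, 8, 8, 8, 8, 8, 8, 8, 8]]

def mt : Fin 9 → Fin 9 → Fin 9 :=
  ![![0, 0, 0, 0, 0, 0, 0, 0, 0],
    ![0, 1, 0, 0, 1, 0, 1, 1, 1],
    ![0, 0, 2, 0, 0, 2, 2, 0, 2],
    ![0, 0, 0, 3, 0, 3, 0, 3, 3],
    ![0, 1, 0, 0, 4, 0, 4, 4, 4],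
    ![0, 0, 2, 3, 0, 5, 2, 3, 5],
    ![0, 1, 2, 0, 4, 2, 6, 4, 6],
    ![0, 1, 0, 3, 4, 3, 4, 7, 7],
    ![0, 1, 2, 3, 4, 5, 6, 7, 8]]

instance : Max N := ⟨jn⟩
instance : Min N := ⟨mt⟩

instance : Lattice N := Lattice.mk' (by decide +kernel) (by decide +kernel) (by decide +kernel)
  (by decide +kernel) (by decide +kernel) (by decide +kernel)

def el (i : Fin 9) : N := i

def lhs : Tm 3 := .inf (.sup (.var 0) (.var 1)) (.sup (.var 0) (.var 2))
def rhs : Tm 3 := .sup (.var 0) (.inf lhs (.sup (.var 1) (.var 2)))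

def out : Fin 5 → N × N := ![(el 1, el 1), (el 2, el 6), (el 2, el 5), (el 3, el 7), (el 3, el 5)]

def P (k : Fin 5) : Sublattice N where
  carrier := {x | x ≠ (out k).1 ∧ x ≠ (out k).2}
  supClosed' := by
    intro a ha b hb
    revert k a b
    simp only [Set.mem_ofPred_eq]
    decide +kernel
  infClosed' := by
    intro a ha b hb
    revert k a b
    simp only [Set.mem_ofPred_eq]
    decide +kernel

theorem P_ok (k : Fin 5) : Holds (P k) lhs rhs := by
  intro v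
  refine Subtype.ext ?_
  have h : ∀ (k : Fin 5) (a b c : N), a ≠ (out k).1 ∧ a ≠ (out k).2 → b ≠ (out k).1 ∧ b ≠ (out k).2 →
      c ≠ (out k).1 ∧ c ≠ (out k).2 →
      (a ⊔ b) ⊓ (a ⊔ c) = a ⊔ ((a ⊔ b) ⊓ (a ⊔ c) ⊓ (b ⊔ c)) := by decide +kernel
  exact h k _ _ _ (v 0).2 (v 1).2 (v 2).2

def f : N → N := ![el 0, el 4, el 2, el 3, el 4, el 5, el 6, el 7, el 8]
def g : N → N := ![el 0, el 2, el 4, el 3, el 2, el 7, el 6, el 5, el 8]

theorem result : ∃ (k : ℕ) (E : Set (Σ n : ℕ, Tm n × Tm n)), (∀ e ∈ E, e.1 ≤ k) ∧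
    ∃ (L : Type) (_ : Lattice L), ¬ Models E L ∧
      ∀ n ≤ k, ∀ t s : Tm n, Symmetric t → Symmetric s →
        (∀ (K : Type) [Lattice K], Models E K → Holds K t s) → Holds L t s := by
  refine ⟨3, {⟨3, lhs, rhs⟩}, by simp, N, inferInstance, fun h => ?_, fun n hn t s ht hs h v => ?_⟩
  · exact absurd (h _ rfl ![el 1, el 2, el 3]) (by decide +kernel)
  have sub : ∀ (v : Fin n → N) (k : Fin 5), (∀ i, v i ≠ (out k).1 ∧ v i ≠ (out k).2) →
      t.ev v = s.ev v := by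
    intro v k hv
    have := congrArg Subtype.val (h (P k) (by rintro _ rfl; exact P_ok k) fun i => ⟨v i, hv i⟩)
    rwa [ev_hom Subtype.val (fun _ _ => rfl) (fun _ _ => rfl),
      ev_hom Subtype.val (fun _ _ => rfl) (fun _ _ => rfl)] at this
  by_cases hv : ∃ k, ∀ i, v i ≠ (out k).1 ∧ v i ≠ (out k).2
  · exact sub v _ hv.choose_spec
  have hσ : ∃ σ : Equiv.Perm (Fin n), g ∘ v = (f ∘ v) ∘ σ := by
    interval_cases n
    · exact absurd ⟨0, fun i => i.elim0⟩ hv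
    · revert v; decide +kernel
    · revert v; decide +kernel
    · have : ∀ a b c : N, (¬ ∃ k, ∀ i, ![a, b, c] i ≠ (out k).1 ∧ ![a, b, c] i ≠ (out k).2) →
          ∃ i j : Fin 3, ∀ l, g (![a, b, c] l) = f (![a, b, c] (Equiv.swap i j l)) := by
        decide +kernel
      have e : v = ![v 0, v 1, v 2] := by ext i; fin_cases i <;> rfl
      rw [e] at hv ⊢
      obtain ⟨i, j, h⟩ := this _ _ _ hv
      exact ⟨Equiv.swap i j, funext h⟩
  obtain ⟨σ, hσ⟩ := hσ
  have f1 := ev_hom f (by decide +kernel) (by decide +kernel) v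
  have g1 := ev_hom g (by decide +kernel) (by decide +kernel) v
  have a1 : g (t.ev v) = f (t.ev v) := by rw [f1, g1, hσ, ← ev_map, ← ht σ N]
  have a2 : g (s.ev v) = f (s.ev v) := by rw [f1, g1, hσ, ← ev_map, ← hs σ N]
  have a3 : f (t.ev v) = f (s.ev v) := by
    rw [f1, f1]
    exact sub _ 0 fun i => (by decide +kernel : ∀ a, f a ≠ (out 0).1 ∧ f a ≠ (out 0).2) _
  exact (by decide +kernel : ∀ a b, g a = f a → g b = f b → f a = f b → a = b) _ _ a1 a2 a3

end Pool.Agent.Results.MP_78b302_al.Arity3
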